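import Pool.Agent.TH302.Cubes.Odd
import Pool.Agent.TH302.Tarry.Upper
import Pool.Agent.TH7.Cyc.Main
import Pool.Agent.H430R2.PermCubes.Two
import Pool.Agent.H430R2.PermCubes.Lower
import Pool.Agent.V1140.Aont.Cube

set_option autoImplicit false

/-!
# Deleting a coordinate from an all-or-nothing transform (MP_2d9e0f_co)

There is a `(1,3,6)`-AONT but no `(1,2,6)`-AONT; more precisely the spectrum of `(1,s,v)`-AONTs is
determined completely.
-/

namespace Pool.Agent.Results.MP_2d9e0f_co.NotMonotone

open Function Pool.Agent.H430R2.PermCubes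

/-- `φ : X^s → X^s` is a `(t,s,v)`-all-or-nothing transform (`v = |X|`): it is a bijection, and for
all sets `I`, `J` of `t` coordinates the map sending `x` to its restriction to `I` together with
the restriction of `φ x` to the complement of `J` is a bijection. -/
def IsAONT {X : Type} (t s : ℕ) (φ : (Fin s → X) → (Fin s → X)) : Prop :=
  Bijective φ ∧ ∀ I J : Finset (Fin s), I.card = t → J.card = t →
    Bijective (fun x : Fin s → X =>
      ((fun i : {i // i ∈ I} => x i, fun j : {j // j ∉ J} => φ x j) :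
        ({i // i ∈ I} → X) × ({j // j ∉ J} → X)))

/-- a `(t,s,v)`-AONT exists -/
def HasAONT (t s v : ℕ) : Prop := ∃ φ : (Fin s → Fin v) → (Fin s → Fin v), IsAONT t s φ

/-- `(1,s,v)`-AONTs are the same as `s` permutation cubes of dimension `s` and order `v` which are
jointly bijective. -/
theorem hasAONT_one_iff (s v : ℕ) : HasAONT 1 s v ↔
    ∃ C : Fin s → (Fin s → Fin v) → Fin v, (∀ i, IsPermutationCube s v (C i)) ∧
      Bijective (fun (x : Fin s → Fin v) (i : Fin s) => C i x) := by
  classical
  constructor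
  · rintro ⟨φ, hφ, h⟩
    let Ψ : (Fin s → Fin v) ≃ (Fin s → Fin v) := Equiv.ofBijective φ hφ
    have hΨ : ∀ x, Ψ x = φ x := fun x => rfl
    refine ⟨fun a y => Ψ.symm y a, ?_, Ψ.symm.bijective⟩
    intro a b y
    rw [← Finite.injective_iff_bijective]
    intro t t' htt
    have hinj := (h {a} {b} (Finset.card_singleton _) (Finset.card_singleton _)).1
    have hx : Ψ.symm (update y b t) = Ψ.symm (update y b t') := by
      apply hinj
      apply Prod.ext
      · funext i
        obtain ⟨i, hi⟩ := i
        rw [Finset.mem_singleton] at hi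
        subst hi
        exact htt
      · funext j
        obtain ⟨j, hj⟩ := j
        rw [Finset.mem_singleton] at hj
        show φ (Ψ.symm (update y b t)) j = φ (Ψ.symm (update y b t')) j
        rw [← hΨ, ← hΨ, Equiv.apply_symm_apply, Equiv.apply_symm_apply, update_of_ne hj,
          update_of_ne hj]
    have h2 := congrFun (Ψ.symm.injective hx) b
    simpa using h2
  · rintro ⟨C, hC, hb⟩
    let Ψ : (Fin s → Fin v) ≃ (Fin s → Fin v) := Equiv.ofBijective _ hb
    have hΨ : ∀ y i, Ψ y i = C i y := fun y i => rfl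
    refine ⟨Ψ.symm, Ψ.symm.bijective, ?_⟩
    intro I J hI hJ
    obtain ⟨a, rfl⟩ := Finset.card_eq_one.1 hI
    obtain ⟨b, rfl⟩ := Finset.card_eq_one.1 hJ
    rw [Fintype.bijective_iff_injective_and_card]
    constructor
    · intro x x' hxx
      have h1 : x a = x' a := congrFun (congrArg Prod.fst hxx) ⟨a, by simp⟩
      have h2 : ∀ j, j ≠ b → Ψ.symm x j = Ψ.symm x' j := fun j hj =>
        congrFun (congrArg Prod.snd hxx) ⟨j, by simpa using hj⟩
      have h3 : Ψ.symm x = update (Ψ.symm x') b (Ψ.symm x b) := by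
        funext j
        by_cases hj : j = b
        · subst hj; simp
        · rw [update_of_ne hj, h2 j hj]
      have h4 : C a (Ψ.symm x) = C a (Ψ.symm x') := by
        rw [← hΨ, ← hΨ, Equiv.apply_symm_apply, Equiv.apply_symm_apply, h1]
      have h5 : Ψ.symm x b = Ψ.symm x' b := by
        apply (hC a b (Ψ.symm x')).1
        show C a (update (Ψ.symm x') b (Ψ.symm x b)) = C a (update (Ψ.symm x') b (Ψ.symm x' b))
        rw [← h3, update_eq_self, h4]
      apply Ψ.symm.injective
      rw [h3, h5, update_eq_self]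
    · have hs : 1 ≤ s := a.pos
      have hc1 : Fintype.card {i // i ∈ ({a} : Finset (Fin s))} = 1 := by
        rw [Fintype.card_coe, Finset.card_singleton]
      have hc2 : Fintype.card {j // j ∉ ({b} : Finset (Fin s))} = s - 1 := by
        rw [Fintype.card_subtype_compl, Fintype.card_coe, Finset.card_singleton, Fintype.card_fin]
      rw [Fintype.card_prod, Fintype.card_fun, Fintype.card_fun, Fintype.card_fun, hc1, hc2,
        Fintype.card_fin, Fintype.card_fin, ← pow_add]
      congr 1
      omega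

theorem hasAONT_of_variational {s v k : ℕ} (hk : s ≤ k) {C : Fin k → (Fin s → Fin v) → Fin v}
    (h : IsVariationalSet s v k C) : HasAONT 1 s v := by
  rw [hasAONT_one_iff]
  exact ⟨fun i => C (Fin.castLE hk i), fun i => h.1 _, h.2 _ (Fin.castLE_injective hk)⟩

/-- a `(1,3,6)`-AONT exists -/
theorem three_six : HasAONT 1 3 6 := by
  rw [hasAONT_one_iff]
  exact ⟨V1140.Aont.C3, V1140.Aont.C3_perm, Finite.injective_iff_bijective.1 V1140.Aont.C3_inj⟩

/-- there is no `(1,2,6)`-AONT -/
theorem not_two_six : ¬ HasAONT 1 2 6 := by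
  rw [hasAONT_one_iff]
  rintro ⟨C, hC, hb⟩
  have row : ∀ (j : Fin 2) (a : Fin 6), Injective (fun b => C j ![a, b]) := by
    intro j a b b' h
    have e : ∀ c, update (![a, 0] : Fin 2 → Fin 6) 1 c = ![a, c] := by
      intro c
      funext i
      fin_cases i <;> simp
    apply (hC j 1 ![a, 0]).1
    show C j (update ![a, 0] 1 b) = C j (update ![a, 0] 1 b')
    rw [e, e]
    exact h
  have col : ∀ (j : Fin 2) (b : Fin 6), Injective (fun a => C j ![a, b]) := by
    intro j b a a' h
    have e : ∀ c, update (![0, b] : Fin 2 → Fin 6) 0 c = ![c, b] := by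
      intro c
      funext i
      fin_cases i <;> simp
    apply (hC j 0 ![0, b]).1
    show C j (update ![0, b] 0 a) = C j (update ![0, b] 0 a')
    rw [e, e]
    exact h
  refine Pool.Agent.TH302.Tarry.tarry (fun i c => C 0 ![i, c]) (fun i c => C 1 ![i, c])
    (row 0) (col 0) (row 1) (col 1) ?_
  intro i c i' c' h0 h1
  have : (![i, c] : Fin 2 → Fin 6) = ![i', c'] := by
    apply hb.1
    funext j
    fin_cases j
    · exact h0
    · exact h1
  exact ⟨congrFun this 0, congrFun this 1⟩

/-- there is no `(1,s,2)`-AONT for `s ≥ 2` -/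
theorem not_two {s : ℕ} (hs : 2 ≤ s) : ¬ HasAONT 1 s 2 := by
  rw [hasAONT_one_iff]
  rintro ⟨C, hC, hb⟩
  have h : IsVariationalSet s 2 s C := by
    refine ⟨hC, fun e he => ?_⟩
    have he' : Bijective e := Finite.injective_iff_bijective.1 he
    rw [← Finite.injective_iff_bijective]
    intro x y hxy
    apply hb.1
    funext j
    obtain ⟨i, rfl⟩ := he'.2 j
    exact congrFun hxy i
  have := two_le h hs
  omega

/-- pairs of orthogonal latin squares -/
theorem hasAONT_two {v : ℕ} (h0 : v ≠ 0) (h2 : v ≠ 2) (h6 : v ≠ 6) : HasAONT 1 2 v := by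
  obtain ⟨A, B, hA, hA', hB, hB', hAB⟩ := Pool.Agent.H430R2.Mols.euler_ops h0 h2 h6
  rw [hasAONT_one_iff]
  refine ⟨![fun x => A (x 0) (x 1), fun x => B (x 0) (x 1)], ?_, ?_⟩
  · intro j i x
    fin_cases j <;> fin_cases i
    · simpa [Function.update] using hA' (x 1)
    · simpa [Function.update] using hA (x 0)
    · simpa [Function.update] using hB' (x 1)
    · simpa [Function.update] using hB (x 0)
  · rw [← Finite.injective_iff_bijective]
    intro x y h
    have h1 : A (x 0) (x 1) = A (y 0) (y 1) := congrFun h 0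
    have h2 : B (x 0) (x 1) = B (y 0) (y 1) := congrFun h 1
    have h3 := @hAB (x 0, x 1) (y 0, y 1) (Prod.ext h1 h2)
    funext i
    fin_cases i
    · exact congrArg Prod.fst h3
    · exact congrArg Prod.snd h3

/-- The complete spectrum of `(1,s,v)`-AONTs with `s ≥ 2`, `v ≥ 1`. -/
theorem spectrum {s v : ℕ} (hs : 2 ≤ s) (hv : 1 ≤ v) :
    HasAONT 1 s v ↔ v ≠ 2 ∧ ¬ (s = 2 ∧ v = 6) := by
  constructor
  · intro h
    refine ⟨?_, ?_⟩
    · rintro rfl
      exact not_two hs h
    · rintro ⟨rfl, rfl⟩
      exact not_two_six h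
  · rintro ⟨h2, h26⟩
    by_cases h6 : v = 6
    · subst h6
      have hs3 : 3 ≤ s := by
        by_contra hcon
        exact h26 ⟨by omega, rfl⟩
      rcases Nat.even_or_odd s with he | ho
      · have hs4 : 4 ≤ s := by
          obtain ⟨r, hr⟩ := he
          omega
        obtain ⟨C, hC⟩ := Pool.Agent.TH7.Cyc.exists_cyc_even hs4 he
        exact hasAONT_of_variational le_rfl hC.1
      · by_cases h3 : s = 3
        · subst h3
          exact three_six
        · have hs5 : 5 ≤ s := by
            obtain ⟨r, hr⟩ := ho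
            omega
          obtain ⟨C, hC⟩ := Pool.Agent.TH302.Cubes.exists_odd hs5 ho
          exact hasAONT_of_variational (Nat.le_succ s) hC
    · by_cases hs2 : s = 2
      · subst hs2
        exact hasAONT_two (by omega) h2 h6
      · obtain ⟨C, hC⟩ := exists_succ (m := s) (n := v) (by omega) (by omega) h2 h6
        exact hasAONT_of_variational (Nat.le_succ s) hC

/-- **Negative answer to Q1.** It is not true that the existence of a `(t,s,v)`-AONT with
`1 ≤ t ≤ s - 1` implies the existence of a `(t,s-1,v)`-AONT: there is a `(1,3,6)`-AONT but no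
`(1,2,6)`-AONT.  Moreover, for `t = 1`, the exact spectrum: a `(1,s,v)`-AONT with `s ≥ 2` and
`v ≥ 1` exists if and only if `v ≠ 2` and `(s,v) ≠ (2,6)`. -/
theorem result :
    (¬ ∀ v t s : ℕ, 1 ≤ v → 1 ≤ t → t ≤ s - 1 → HasAONT t s v → HasAONT t (s - 1) v) ∧
    (HasAONT 1 3 6 ∧ ¬ HasAONT 1 2 6) ∧
    (∀ s v : ℕ, 2 ≤ s → 1 ≤ v → (HasAONT 1 s v ↔ v ≠ 2 ∧ ¬ (s = 2 ∧ v = 6))) :=
  ⟨fun h => not_two_six (h 6 1 3 (by norm_num) le_rfl (by norm_num) three_six),
    ⟨three_six, not_two_six⟩, fun _ _ hs hv => spectrum hs hv⟩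

end Pool.Agent.Results.MP_2d9e0f_co.NotMonotone
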